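import Pool.Agent.H278.TD.Def

/-!
# TD-e2: average of the squares of the sampled degrees (helper249, for helper278)
-/

set_option autoImplicit false

open Finset
open Pool.Agent.H278.TD

namespace Pool.Agent.H249.TD

variable {V : Type} [DecidableEq V]

/-- indicator of an arc -/
noncomputable def ind (E : Finset (V × V)) (v a : V) : ℝ := if (v, a) ∈ E then 1 else 0

theorem ind_nonneg (E : Finset (V × V)) (v a : V) : 0 ≤ ind E v a := by
  unfold ind
  by_cases h : (v, a) ∈ E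
  · rw [if_pos h]; exact zero_le_one
  · rw [if_neg h]

theorem so_eq {s : ℕ} (E : Finset (V × V)) (φ : Fin s → V) (x : Fin s) :
    (so E φ x : ℝ) = ∑ j, ind E (φ x) (φ j) := by
  unfold so ind
  rw [Finset.sum_boole]

theorem odg_eq [Fintype V] (E : Finset (V × V)) (v : V) :
    (odg E v : ℝ) = ∑ a, ind E v a := by
  unfold odg ind
  rw [Finset.sum_boole]
  have h : E.filter (fun e => e.1 = v) = (univ.filter fun a => (v, a) ∈ E).image fun a => (v, a) := by
    ext ⟨u, a⟩
    rw [Finset.mem_filter, Finset.mem_image]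
    constructor
    · rintro ⟨h1, h2⟩
      have h2' : u = v := h2
      subst h2'
      exact ⟨a, Finset.mem_filter.2 ⟨Finset.mem_univ _, h1⟩, rfl⟩
    · rintro ⟨b, hb, hb'⟩
      rw [Prod.mk.injEq] at hb'
      obtain ⟨rfl, rfl⟩ := hb'
      exact ⟨(Finset.mem_filter.1 hb).2, rfl⟩
  rw [h, Finset.card_image_of_injective _ (fun a b hab => (Prod.mk.inj hab).2)]

/-- the number of triples of distinct elements -/
theorem count (s : ℕ) (c : ℝ) :
    ∑ x : Fin s, ∑ j ∈ univ.erase x, ∑ _k ∈ (univ.erase x).erase j, c =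
      (s : ℝ) * (s - 1) * (s - 2) * c := by
  have h1 : ∀ x : Fin s, ((#(univ.erase x) : ℕ) : ℝ) = (s : ℝ) - 1 := by
    intro x
    have hs : 1 ≤ s := Nat.one_le_iff_ne_zero.2 (fun h => (h ▸ x).elim0)
    rw [Finset.card_erase_of_mem (Finset.mem_univ _), Finset.card_univ, Fintype.card_fin,
      Nat.cast_sub hs, Nat.cast_one]
  have h2 : ∀ x : Fin s, ∀ j ∈ univ.erase x, ((#((univ.erase x).erase j) : ℕ) : ℝ) = (s : ℝ) - 2 := by
    intro x j hj
    have h3 : 1 ≤ #(univ.erase x) := Finset.card_pos.2 ⟨j, hj⟩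
    rw [Finset.card_erase_of_mem hj, Nat.cast_sub h3, h1 x, Nat.cast_one]
    ring
  have h4 : ∀ x : Fin s, ∑ j ∈ univ.erase x, ∑ _k ∈ (univ.erase x).erase j, c =
      ((s : ℝ) - 1) * ((s - 2) * c) := by
    intro x
    rw [Finset.sum_congr rfl (fun j hj => by
      rw [Finset.sum_const, nsmul_eq_mul, h2 x j hj] :
      ∀ j ∈ univ.erase x, ∑ _k ∈ (univ.erase x).erase j, c = ((s : ℝ) - 2) * c)]
    rw [Finset.sum_const, nsmul_eq_mul, h1 x]
  rw [Finset.sum_congr rfl fun x _ => h4 x, Finset.sum_const, nsmul_eq_mul, Finset.card_univ,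
    Fintype.card_fin]
  ring

theorem e2 (h : S_av) : S_e2 := by
  intro V _ _ s E _
  have hav := (h V s).2
  set n : ℝ := (Fintype.card V : ℝ) with hn
  have hn0 : 0 ≤ n := Nat.cast_nonneg _
  let g : V → V → V → ℝ := fun v a b => ind E v a * ind E v b
  have hg0 : ∀ v a b, 0 ≤ g v a b := fun v a b => mul_nonneg (ind_nonneg E v a) (ind_nonneg E v b)
  -- the sum over the triples of distinct elements
  have h1 : ∑ x : Fin s, ∑ j ∈ univ.erase x, ∑ k ∈ (univ.erase x).erase j,
      (n ^ 3 * ∑ φ : Fin s → V, g (φ x) (φ j) (φ k)) =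
      (s : ℝ) * (s - 1) * (s - 2) * n ^ s * ∑ v, (odg E v : ℝ) ^ 2 := by
    have h2 : ∀ x : Fin s, ∀ j ∈ univ.erase x, ∀ k ∈ (univ.erase x).erase j,
        n ^ 3 * ∑ φ : Fin s → V, g (φ x) (φ j) (φ k) = n ^ s * ∑ v, (odg E v : ℝ) ^ 2 := by
      intro x j hj k hk
      have hxj : x ≠ j := (Finset.ne_of_mem_erase hj).symm
      have hjk : j ≠ k := (Finset.ne_of_mem_erase hk).symm
      have hxk : x ≠ k := (Finset.ne_of_mem_erase (Finset.mem_of_mem_erase hk)).symm
      rw [hav x j k hxj hjk hxk g]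
      congr 1
      refine Finset.sum_congr rfl fun v _ => ?_
      rw [odg_eq, sq, Finset.sum_mul_sum]
    rw [Finset.sum_congr rfl fun x _ => Finset.sum_congr rfl fun j hj =>
      Finset.sum_congr rfl fun k hk => h2 x j hj k hk, count]
    ring
  rw [← h1]
  -- exchange of the sums
  have h3 : ∑ x : Fin s, ∑ j ∈ univ.erase x, ∑ k ∈ (univ.erase x).erase j,
      (n ^ 3 * ∑ φ : Fin s → V, g (φ x) (φ j) (φ k)) =
      n ^ 3 * ∑ φ : Fin s → V, ∑ x : Fin s, ∑ j ∈ univ.erase x, ∑ k ∈ (univ.erase x).erase j,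
        g (φ x) (φ j) (φ k) := by
    rw [Finset.sum_comm, Finset.mul_sum]
    refine Finset.sum_congr rfl fun x _ => ?_
    rw [Finset.sum_comm, Finset.mul_sum]
    refine Finset.sum_congr rfl fun j _ => ?_
    rw [Finset.sum_comm, Finset.mul_sum]
  rw [h3]
  refine mul_le_mul_of_nonneg_left ?_ (pow_nonneg hn0 3)
  refine Finset.sum_le_sum fun φ _ => Finset.sum_le_sum fun x _ => ?_
  rw [so_eq, sq, Finset.sum_mul_sum]
  refine le_trans (Finset.sum_le_sum fun j _ => ?_)
    (Finset.sum_le_sum_of_subset_of_nonneg (Finset.erase_subset x univ) fun j _ _ =>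
      Finset.sum_nonneg fun k _ => hg0 (φ x) (φ j) (φ k))
  exact Finset.sum_le_sum_of_subset_of_nonneg (Finset.subset_univ _) fun k _ _ =>
    hg0 (φ x) (φ j) (φ k)

end Pool.Agent.H249.TD
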